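import Mathlib

namespace Pool.Agent.Results.MP_7b3742_al.Counter

/-- `g` (a permutation of the words over `ZMod d`) is the tree automorphism induced by
`x ↦ b + x A` with `A` upper triangular with unit diagonal. -/
def IsAffine {d : ℕ} (g : Equiv.Perm (List (ZMod d))) : Prop :=
  ∃ (A : ℕ → ℕ → ZMod d) (b : ℕ → ZMod d), (∀ i j, j < i → A i j = 0) ∧ (∀ i, IsUnit (A i i)) ∧
    ∀ w, (g w).length = w.length ∧ ∀ j < w.length,
      (g w).getD j 0 = b j + ∑ i ∈ Finset.range (j + 1), w.getD i 0 * A i j

/-- The states `g|_v`, given by `g (v u) = g(v) g|_v(u)`. -/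
def states {d : ℕ} (g : Equiv.Perm (List (ZMod d))) : Set (Equiv.Perm (List (ZMod d))) :=
  {h | ∃ v, ∀ u, g (v ++ u) = g v ++ h u}

/-- The group `G_g` generated by the states of `g`. -/
def GA {d : ℕ} (g : Equiv.Perm (List (ZMod d))) : Type := Subgroup.closure (states g)
instance {d : ℕ} (g : Equiv.Perm (List (ZMod d))) : Group (GA g) := Subgroup.toGroup _

/-- `ℤ^l`. -/
def L (l : ℕ) : Type := Fin l → ℤ
instance (l : ℕ) : AddCommGroup (L l) := Pi.addCommGroup
/-- `(ZMod d)^k`. -/
def K (d k : ℕ) : Type := Fin k → ZMod d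
instance (d k : ℕ) : AddCommGroup (K d k) := Pi.addCommGroup
/-- `⨁_{ℤ^l} (ZMod d)^k`. -/
def Base (d k l : ℕ) : Type := L l →₀ K d k
noncomputable instance (d k l : ℕ) : AddCommGroup (Base d k l) := Finsupp.instAddCommGroup

/-- Translation of the support by `a`. -/
noncomputable def sh (d k l : ℕ) (a : L l) : Base d k l ≃+ Base d k l :=
  Finsupp.domCongr (Equiv.addLeft a)

lemma sh_apply (d k l : ℕ) (a : L l) (f : L l →₀ K d k) (x : L l) :
    (show L l →₀ K d k from sh d k l a f) x = f (-a + x) := rfl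

lemma sh_zero (d k l : ℕ) (f : Base d k l) : sh d k l 0 f = f :=
  Finsupp.ext fun x => (sh_apply d k l 0 f x).trans (by simp)

lemma sh_add (d k l : ℕ) (a b : L l) (f : Base d k l) :
    sh d k l (a + b) f = sh d k l a (sh d k l b f) :=
  Finsupp.ext fun x => (sh_apply d k l _ f x).trans (by
    refine Eq.trans ?_ (sh_apply d k l _ _ x).symm
    refine Eq.trans ?_ (sh_apply d k l _ _ _).symm
    simp [add_assoc])

/-- The restricted wreath product `(ZMod d)^k ≀ ℤ^l`: pairs `(f, a)` with
`(f, a) (g, b) = (f + a·g, a + b)`. -/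
def Wreath (d k l : ℕ) : Type := Base d k l × L l
noncomputable instance (d k l : ℕ) : Mul (Wreath d k l) :=
  ⟨fun x y => (x.1 + sh d k l x.2 y.1, x.2 + y.2)⟩
noncomputable instance (d k l : ℕ) : One (Wreath d k l) := ⟨(0, 0)⟩
noncomputable instance (d k l : ℕ) : Inv (Wreath d k l) := ⟨fun x => (-sh d k l (-x.2) x.1, -x.2)⟩

lemma w_assoc (d k l : ℕ) (x y z : Wreath d k l) : x * y * z = x * (y * z) := by
  refine Prod.ext ?_ (add_assoc x.2 y.2 z.2)
  show x.1 + sh d k l x.2 y.1 + sh d k l (x.2 + y.2) z.1 =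
    x.1 + sh d k l x.2 (y.1 + sh d k l y.2 z.1)
  rw [map_add, sh_add, add_assoc]
lemma w_one (d k l : ℕ) (x : Wreath d k l) : 1 * x = x := by
  refine Prod.ext ?_ (zero_add x.2)
  show 0 + sh d k l 0 x.1 = x.1
  rw [sh_zero, zero_add]
lemma w_inv (d k l : ℕ) (x : Wreath d k l) : x⁻¹ * x = 1 :=
  Prod.ext (neg_add_cancel (sh d k l (-x.2) x.1)) (neg_add_cancel x.2)

noncomputable instance (d k l : ℕ) : Group (Wreath d k l) :=
  Group.ofLeftAxioms (w_assoc d k l) (w_one d k l) (w_inv d k l)

abbrev X := ZMod 6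

def f : X → List X → List X
  | _, [] => []
  | c, x :: w => (x + c) :: f (3 * x) w

def fi : X → List X → List X
  | _, [] => []
  | c, y :: w => (y - c) :: fi (3 * (y - c)) w

lemma fi_f (c : X) (w : List X) : fi c (f c w) = w := by
  induction w generalizing c with
  | nil => rfl
  | cons x w ih => simp [f, fi, ih]

lemma f_fi (c : X) (w : List X) : f c (fi c w) = w := by
  induction w generalizing c with
  | nil => rfl
  | cons x w ih => simp [f, fi, ih]

def F (c : X) : Equiv.Perm (List X) := ⟨f c, fi c, fi_f c, f_fi c⟩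

lemma f_len (c : X) (w : List X) : (f c w).length = w.length := by
  induction w generalizing c with
  | nil => rfl
  | cons x w ih => simp [f, ih]

lemma f_get (c : X) (w : List X) (j : ℕ) (hj : j < w.length) :
    (f c w).getD j 0 = w.getD j 0 + if j = 0 then c else 3 * w.getD (j - 1) 0 := by
  induction w generalizing c j with
  | nil => simp at hj
  | cons x w ih =>
    cases j with
    | zero => simp [f]
    | succ j =>
      have := ih (3 * x) j (by simpa using hj)
      simp only [f, List.getD_cons_succ, this]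
      cases j <;> simp

lemma f_app (c : X) (hc : c = 0 ∨ c = 3) (v : List X) :
    ∃ e : X, (e = 0 ∨ e = 3) ∧ ∀ u, f c (v ++ u) = f c v ++ f e u := by
  induction v generalizing c with
  | nil => exact ⟨c, hc, fun u => rfl⟩
  | cons x v ih =>
    have h3 : ∀ x : X, 3 * x = 0 ∨ 3 * x = 3 := by decide
    obtain ⟨e, he, h⟩ := ih (3 * x) (h3 x)
    exact ⟨e, he, fun u => by simp [f, h]⟩

lemma states_sub : states (F 0) ⊆ {F 0, F 3} := by
  rintro h ⟨v, hv⟩
  obtain ⟨e, he, h2⟩ := f_app 0 (Or.inl rfl) v
  have : h = F e := by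
    ext1 u
    have h1 : f 0 (v ++ u) = f 0 v ++ h u := hv u
    rw [h2] at h1
    exact (List.append_cancel_left h1).symm
  rcases he with rfl | rfl
  · exact Or.inl this
  · exact Or.inr this

lemma affine : IsAffine (F 0) := by
  refine ⟨fun i j => if j = i then 1 else if j = i + 1 then 3 else 0, 0, ?_, by simp, ?_⟩
  · intro i j h
    simp only
    rw [if_neg (by omega), if_neg (by omega)]
  · intro w
    refine ⟨f_len 0 w, fun j hj => ?_⟩
    show (f 0 w).getD j 0 = _
    rw [f_get 0 w j hj, Finset.sum_range_succ]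
    cases j with
    | zero => simp
    | succ j =>
      rw [Finset.sum_range_succ, Finset.sum_eq_zero]
      · simp; ring
      · intro i hi
        have := Finset.mem_range.1 hi
        beta_reduce
        rw [if_neg (by omega), if_neg (by omega), mul_zero]

def P : Subgroup (Equiv.Perm (List X)) where
  carrier := {h | h [] = [] ∧ ∀ w x, h (w ++ [x]) = h w ++ [x] ∨ h (w ++ [x]) = h w ++ [x + 3]}
  one_mem' := ⟨rfl, fun _ _ => Or.inl rfl⟩
  mul_mem' := by
    rintro a b ⟨a0, ha⟩ ⟨b0, hb⟩
    refine ⟨by simp [a0, b0], fun w x => ?_⟩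
    have h6 : x + 3 + 3 = x := by revert x; decide
    simp only [Equiv.Perm.mul_apply]
    rcases hb w x with h | h <;> rw [h]
    · exact ha _ x
    · rcases ha (b w) (x + 3) with h | h
      · exact Or.inr h
      · left; rw [h, h6]
  inv_mem' := by
    rintro a ⟨a0, ha⟩
    refine ⟨by rw [Equiv.Perm.inv_eq_iff_eq, a0], fun w x => ?_⟩
    have h6 : x + 3 + 3 = x := by revert x; decide
    have hn : x + 3 ≠ x := by revert x; decide
    simp only [Equiv.Perm.inv_eq_iff_eq]
    rcases ha (a⁻¹ w) x with h | h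
    · left; rw [h]; simp
    · right
      rcases ha (a⁻¹ w) (x + 3) with h2 | h2
      · have := a.injective (h.trans h2.symm)
        simp at this
        exact absurd this (by decide)
      · rw [h2, h6]; simp

lemma F_mem (c : X) (hc : c = 0 ∨ c = 3) : F c ∈ P := by
  refine ⟨rfl, fun w x => ?_⟩
  obtain ⟨e, he, h⟩ := f_app c hc w
  rcases he with rfl | rfl
  · left; show f c _ = f c w ++ _; rw [h]; simp [f]
  · right; show f c _ = f c w ++ _; rw [h]; simp [f]

lemma cube (h : Equiv.Perm (List X)) (hP : h ∈ P) (h3 : h ^ 3 = 1) : h = 1 := by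
  ext1 w
  induction w using List.reverseRecOn with
  | nil => exact hP.1
  | append_singleton w x ih =>
    have ih' : h w = w := ih
    have h6 : x + 3 + 3 = x := by revert x; decide
    rcases hP.2 w x with h1 | h1
    · rw [h1, ih']; rfl
    · exfalso
      rw [ih'] at h1
      have h4 : h (h (h (w ++ [x]))) = w ++ [x] := by
        have := congrArg (fun g : Equiv.Perm (List X) => g (w ++ [x])) h3
        simpa [pow_succ] using this
      rcases hP.2 w (x + 3) with h2 | h2 <;> rw [ih'] at h2
      · have := h.injective (h1.trans h2.symm)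
        simp at this
        exact absurd this (by decide)
      · rw [h1, h2, h6, h1] at h4
        simp at h4
        exact absurd h4 (by decide)

lemma iter (N n : ℕ) (hn : n ≤ N) :
    ((F 0 ^ n) (1 :: List.replicate N 0)).length = N + 1 ∧
    (∀ j, n < j → ((F 0 ^ n) (1 :: List.replicate N 0)).getD j 0 = 0) ∧
    3 * ((F 0 ^ n) (1 :: List.replicate N 0)).getD n 0 = 3 := by
  induction n with
  | zero =>
    refine ⟨by simp, fun j hj => ?_, by simp⟩
    obtain ⟨i, rfl⟩ : ∃ i, j = i + 1 := ⟨j - 1, by omega⟩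
    simp [List.getD, List.getElem?_replicate]
    split_ifs <;> simp
  | succ n ih =>
    obtain ⟨h1, h2, h3⟩ := ih (by omega)
    rw [pow_succ', Equiv.Perm.mul_apply]
    set w := (F 0 ^ n) (1 :: List.replicate N 0)
    refine ⟨(f_len 0 w).trans h1, fun j hj => ?_, ?_⟩
    · show (f 0 w).getD j 0 = 0
      by_cases hl : j < w.length
      · rw [f_get 0 w j hl, if_neg (by omega), h2 j (by omega), h2 (j - 1) (by omega)]; simp
      · exact List.getD_eq_default _ _ (by rw [f_len]; omega)
    · show 3 * (f 0 w).getD (n + 1) 0 = 3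
      rw [f_get 0 w _ (by omega), if_neg (by omega), h2 _ (by omega), Nat.add_sub_cancel, h3]
      decide

theorem result : ∃ (d : ℕ) (g : Equiv.Perm (List (ZMod d))), 2 ≤ d ∧ IsAffine g ∧
    (states g).Finite ∧ Infinite (GA g) ∧
    ∀ k l : ℕ, 1 ≤ k → 1 ≤ l → ∀ N : Subgroup (GA g), IsEmpty (N ≃* Wreath d k l) := by
  refine ⟨6, F 0, by norm_num, affine, (Set.toFinite _).subset states_sub, ?_, ?_⟩
  · show Infinite (Subgroup.closure (states (F 0)))
    by_contra hf
    rw [not_infinite_iff_finite] at hf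
    have hm : F 0 ∈ Subgroup.closure (states (F 0)) :=
      Subgroup.subset_closure ⟨[], fun u => rfl⟩
    obtain ⟨n, hn, h⟩ := (isOfFinOrder_of_finite
      (⟨F 0, hm⟩ : Subgroup.closure (states (F 0)))).exists_pow_eq_one
    have h1 : F 0 ^ n = 1 := congrArg Subtype.val h
    have h2 := (iter n n le_rfl).2.2
    have h3 := (iter n 0 (Nat.zero_le _)).2.1 n hn
    rw [h1] at h2
    rw [pow_zero] at h3
    rw [h3] at h2
    exact absurd h2 (by decide)
  · intro k l hk hl N
    refine ⟨fun e => ?_⟩
    have hle : Subgroup.closure (states (F 0)) ≤ P := by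
      rw [Subgroup.closure_le]
      intro h hh
      rcases states_sub hh with rfl | rfl
      · exact F_mem 0 (Or.inl rfl)
      · exact F_mem 3 (Or.inr rfl)
    let c : Base 6 k l := Finsupp.single 0 fun _ => 2
    let a : Wreath 6 k l := (c, 0)
    have a3 : a ^ 3 = 1 := by
      have h0 : (3 • fun _ => (2 : ZMod 6) : K 6 k) = 0 := by
        funext i; show 3 • (2 : ZMod 6) = 0; decide
      have : 3 • c = 0 :=
        (Finsupp.smul_single 3 (0 : L l) (fun _ => (2 : ZMod 6) : K 6 k)).trans
          (Finsupp.single_eq_zero.2 h0)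
      rw [pow_three']
      refine Prod.ext ?_ (show (0 + 0 + 0 : L l) = 0 by simp)
      show c + sh 6 k l 0 c + sh 6 k l (0 + 0) c = 0
      rw [add_zero, sh_zero, ← this]; abel
    have hb : ((e.symm a : N) : GA (F 0)).1 = 1 := by
      apply cube _ (hle (Subtype.prop _))
      have h1 : (e.symm a) ^ 3 = 1 := by rw [← map_pow, a3, map_one]
      exact congrArg (fun y : N => (y : GA (F 0)).1) h1
    have hc : e.symm a = 1 := Subtype.ext (Subtype.ext hb)
    have hd : a = 1 := by simpa using congrArg e hc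
    have he : c = 0 := congrArg Prod.fst hd
    have h0 : (Finsupp.single 0 fun _ => 2 : L l →₀ K 6 k) = 0 := he
    have := congrFun (Finsupp.single_eq_zero.1 h0) ⟨0, hk⟩
    exact absurd (show (2 : ZMod 6) = 0 from this) (by decide)

end Pool.Agent.Results.MP_7b3742_al.Counter
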